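import Pool.Agent.Helper83.TC.Core

/-!
The Kempe chain part of the Vizing type theorem.
-/

namespace Pool.TC

open Classical

variable {W κ : Type*} {H : SimpleGraph W} {m : W → W} {E : EC κ W} {x y : W}

/-- Completing the colouring is possible. -/
def Done (κ : Type*) (H : SimpleGraph W) (m : W → W) : Prop := ∃ E' : EC κ W, Good H m E'

theorem kempe_apply_mem (E : EC κ W) {a b : κ} {K : Set W} (ha : ∀ u ∈ K, E.N a u ∈ K)
    (hb : ∀ u ∈ K, E.N b u ∈ K) {u : W} (hu : u ∈ K) (c : κ) :
    (E.kempe a b K ha hb).N c u = E.N (Equiv.swap a b c) u := by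
  simp [EC.kempe, hu]

theorem kempe_apply_not_mem (E : EC κ W) {a b : κ} {K : Set W} (ha : ∀ u ∈ K, E.N a u ∈ K)
    (hb : ∀ u ∈ K, E.N b u ∈ K) {u : W} (hu : u ∉ K) (c : κ) :
    (E.kempe a b K ha hb).N c u = E.N c u := by
  simp [EC.kempe, hu]

/-- Kempe changes with a free colour keep the state. -/
theorem St.kempe (h : St H m E x y) {f b : κ} (hf : Fr m E f) {K : Set W}
    (ha : ∀ u ∈ K, E.N f u ∈ K) (hb : ∀ u ∈ K, E.N b u ∈ K) :
    St H m (E.kempe f b K ha hb) x y := by
  have key : ∀ u a, ∃ a', (E.kempe f b K ha hb).N a u = E.N a' u := by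
    intro u a
    by_cases hu : u ∈ K
    · exact ⟨_, kempe_apply_mem E ha hb hu a⟩
    · exact ⟨_, kempe_apply_not_mem E ha hb hu a⟩
  have key' : ∀ u a, ∃ a', (E.kempe f b K ha hb).N a' u = E.N a u := by
    intro u a
    by_cases hu : u ∈ K
    · exact ⟨Equiv.swap f b a, by rw [kempe_apply_mem E ha hb hu, Equiv.swap_apply_self]⟩
    · exact ⟨_, kempe_apply_not_mem E ha hb hu a⟩
  refine ⟨h.adj, h.ny, ?_, ?_, ?_, ?_⟩
  · intro a
    obtain ⟨a', ha'⟩ := key x a
    rw [ha']
    exact h.unc a'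
  · intro u v huv
    rcases h.cov u v huv with ⟨a, ha'⟩ | h1 | h1
    · obtain ⟨a', ha''⟩ := key' u a
      exact Or.inl ⟨a', by rw [ha'', ha']⟩
    · exact Or.inr (Or.inl h1)
    · exact Or.inr (Or.inr h1)
  · intro a u hau
    obtain ⟨a', ha'⟩ := key u a
    rw [ha'] at hau ⊢
    exact h.sub _ _ hau
  · intro a u v h1 h2 h3 h4
    by_cases hu : u ∈ K
    · rw [kempe_apply_mem E ha hb hu] at h1
      by_cases hv : v ∈ K
      · rw [kempe_apply_mem E ha hb hv] at h3
        exact h.rb _ u v h1 h2 h3 h4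
      · rw [kempe_apply_not_mem E ha hb hv] at h3
        by_cases haf : a = f
        · subst haf
          exact absurd (hf v h3) h4
        by_cases hab : a = b
        · subst hab
          rw [Equiv.swap_apply_right] at h1
          exact absurd (hf u h1) h2
        rw [Equiv.swap_apply_of_ne_of_ne haf hab] at h1
        exact h.rb _ u v h1 h2 h3 h4
    · rw [kempe_apply_not_mem E ha hb hu] at h1
      by_cases hv : v ∈ K
      · rw [kempe_apply_mem E ha hb hv] at h3
        by_cases haf : a = f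
        · subst haf
          exact absurd (hf u h1) h2
        by_cases hab : a = b
        · subst hab
          rw [Equiv.swap_apply_right] at h3
          exact absurd (hf v h3) h4
        rw [Equiv.swap_apply_of_ne_of_ne haf hab] at h3
        exact h.rb _ u v h1 h2 h3 h4
      · rw [kempe_apply_not_mem E ha hb hv] at h3
        exact h.rb _ u v h1 h2 h3 h4

theorem Fr.kempe {f b : κ} (hf : Fr m E f) {K : Set W}
    (ha : ∀ u ∈ K, E.N f u ∈ K) (hb : ∀ u ∈ K, E.N b u ∈ K)
    (hK : ∀ u ∈ K, E.N b u = m u → m u = u) : Fr m (E.kempe f b K ha hb) f := by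
  intro u hu
  by_cases huK : u ∈ K
  · rw [kempe_apply_mem E ha hb huK, Equiv.swap_apply_left] at hu
    exact hK u huK hu
  · rw [kempe_apply_not_mem E ha hb huK] at hu
    exact hf u hu

/-- A fan survives a change of the colouring unless one of its vertices misses `f` afterwards. -/
theorem Fan.transfer {E' : EC κ W} {f : κ} (P : κ → Prop)
    (hstep : ∀ bs z b, P b → Fan m E.N x y bs z → E.N b z = z → E.N b x ≠ x →
      (E'.N b z = z ∧ E'.N b x = E.N b x) ∨ E'.N f z = z)
    {bs : List κ} {w : W} (hf : Fan m E.N x y bs w) (hP : ∀ b ∈ bs, P b) :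
    Fan m E'.N x y bs w ∨ ∃ bs' u', Fan m E'.N x y bs' u' ∧ E'.N f u' = u' := by
  induction hf with
  | base => exact Or.inl Fan.base
  | @step bs z b hfz hz hw hwm hb ih =>
    rcases ih (fun c hc => hP c (List.mem_cons_of_mem _ hc)) with ih | ih
    · rcases hstep bs z b (hP b List.mem_cons_self) hfz hz hw with ⟨h1, h2⟩ | h1
      · left
        have := Fan.step (m := m) (N := E'.N) (x := x) (y0 := y) ih h1 (by rw [h2]; exact hw)
          (by rw [h2]; exact hwm) hb
        rw [h2] at this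
        exact this
      · exact Or.inr ⟨bs, z, ih, h1⟩
    · exact Or.inr ih

/-- The vertex of a fan at which a colour is used. -/
theorem Fan.split {N : κ → W → W} {bs : List κ} {w : W} (hf : Fan m N x y bs w) {c : κ}
    (hc : c ∈ bs) : ∃ bs' z, Fan m N x y bs' z ∧ c ∉ bs' ∧ N c z = z ∧ N c x ≠ x ∧
      N c x ≠ m x := by
  induction hf with
  | base => simp at hc
  | @step bs z b hfz hz hw hwm hb ih =>
    rcases List.mem_cons.1 hc with rfl | hc
    · exact ⟨bs, z, hfz, hb, hz, hw, hwm⟩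
    · exact ih hc

/-- Claim A. -/
theorem claimA (hm : ∀ u, m (m u) = u) (h : St H m E x y) {bs : List κ} {w : W}
    (hf : Fan m E.N x y bs w) {a : κ} (hx : E.N a x = x) (hw : E.N a w = w) :
    Done κ H m := by
  obtain ⟨E', hst, _, i2, i4, _, _⟩ := hf.shift hm h
  exact hst.finish hm a (i4 a hx) (i2 a hw)

/-- Three fan vertices miss a common colour. -/
theorem pigeon [Fintype κ] [Fintype W] (hm : ∀ u, m (m u) = u) (h : St H m E x y) {D : ℕ}
    (hD : ∀ u, (Finset.univ.filter (fun v => H.Adj u v)).card ≤ D)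
    (hκ : Fintype.card κ = D + 2) (hnd : ¬ Done κ H m) :
    ∃ b y1 y2 y3, y1 ≠ y2 ∧ y1 ≠ y3 ∧ y2 ≠ y3 ∧
      (∃ bs, Fan m E.N x y bs y1) ∧ (∃ bs, Fan m E.N x y bs y2) ∧ (∃ bs, Fan m E.N x y bs y3) ∧
      E.N b y1 = y1 ∧ E.N b y2 = y2 ∧ E.N b y3 = y3 := by
  by_contra hcon
  push Not at hcon
  set Y : Finset W := Finset.univ.filter (fun w => ∃ bs, Fan m E.N x y bs w) with hY
  have hYmem : ∀ w, w ∈ Y ↔ ∃ bs, Fan m E.N x y bs w := fun w => by simp [hY]
  have hy0 : y ∈ Y := (hYmem y).2 ⟨[], Fan.base⟩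
  have h2 : ∀ b, (Y.filter (fun w => E.N b w = w)).card ≤ 2 := by
    intro b
    by_contra hb
    push Not at hb
    obtain ⟨y1, y2, y3, m1, m2, m3, n12, n13, n23⟩ := Finset.two_lt_card_iff.1 hb
    simp only [Finset.mem_filter, hYmem] at m1 m2 m3
    exact hcon b y1 y2 y3 n12 n13 n23 m1.1 m2.1 m3.1 m1.2 m2.2 m3.2
  set U : Finset κ := Finset.univ.filter (fun b => ∃ w ∈ Y, E.N b w = w) with hU
  have hUx : ∀ b ∈ U, E.N b x ≠ x := by
    intro b hb hbx
    simp only [hU, Finset.mem_filter, Finset.mem_univ, true_and] at hb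
    obtain ⟨w, hw, hbw⟩ := hb
    obtain ⟨bs, hbs⟩ := (hYmem w).1 hw
    exact hnd (claimA hm h hbs hbx hbw)
  have hUcard : U.card ≤ Y.card := by
    have h3 : U.card ≤ (insert (m x) (Y.erase y)).card := by
      refine Finset.card_le_card_of_injOn (fun b => E.N b x) ?_ ?_
      · intro b hb
        have hb' := hUx b hb
        simp only [hU, Finset.coe_filter, Finset.mem_univ, true_and, Set.mem_ofPred_eq] at hb
        obtain ⟨w, hw, hbw⟩ := hb
        obtain ⟨bs, hbs⟩ := (hYmem w).1 hw
        simp only [Finset.coe_insert, Finset.coe_erase, Set.mem_insert_iff, Set.mem_sdiff,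
          Finset.mem_coe, Set.mem_singleton_iff]
        by_cases hbm : E.N b x = m x
        · exact Or.inl hbm
        · right
          refine ⟨?_, h.unc b⟩
          rw [hYmem]
          by_cases hbb : b ∈ bs
          · obtain ⟨bs', z, hz, hz1, hz2, _, _⟩ := hbs.split hbb
            exact ⟨_, Fan.step hz hz2 hb' hbm hz1⟩
          · exact ⟨_, Fan.step hbs hbw hb' hbm hbb⟩
      · intro a ha b _ hab
        exact E.uniq _ _ _ hab (hUx a ha)
    refine h3.trans ((Finset.card_insert_le _ _).trans ?_)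
    rw [Finset.card_erase_add_one hy0]
  have hmiss : ∀ w, 2 ≤ (Finset.univ.filter (fun b => E.N b w = w)).card := by
    intro w
    have h4 : (Finset.univ.filter (fun b => ¬ E.N b w = w)).card ≤ D := by
      refine le_trans ?_ (hD w)
      refine Finset.card_le_card_of_injOn (fun b => E.N b w) ?_ ?_
      · intro b hb
        simp only [Finset.coe_filter, Finset.mem_univ, true_and, Set.mem_ofPred_eq] at hb ⊢
        exact h.sub b w hb
      · intro a ha b _ hab
        simp only [Finset.coe_filter, Finset.mem_univ, true_and, Set.mem_ofPred_eq] at ha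
        exact E.uniq _ _ _ hab ha
    have h5 := Finset.card_filter_add_card_filter_not (s := (Finset.univ : Finset κ))
      (fun b => E.N b w = w)
    rw [Finset.card_univ, hκ] at h5
    omega
  have hmiss0 : 3 ≤ (Finset.univ.filter (fun b => E.N b y = y)).card := by
    have hyx : ∀ b, E.N b y ≠ x := fun b hb => h.unc b (by rw [← hb, E.inv])
    have h4 : (Finset.univ.filter (fun b => ¬ E.N b y = y)).card + 1 ≤ D := by
      have h6 : (Finset.univ.filter (fun b => ¬ E.N b y = y)).card ≤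
          ((Finset.univ.filter (fun v => H.Adj y v)).erase x).card := by
        refine Finset.card_le_card_of_injOn (fun b => E.N b y) ?_ ?_
        · intro b hb
          simp only [Finset.coe_filter, Finset.mem_univ, true_and, Set.mem_ofPred_eq] at hb
          simp only [Finset.coe_erase, Finset.coe_filter, Finset.mem_univ, true_and,
            Set.mem_sdiff, Set.mem_ofPred_eq, Set.mem_singleton_iff]
          exact ⟨h.sub b y hb, hyx b⟩
        · intro a ha b _ hab
          simp only [Finset.coe_filter, Finset.mem_univ, true_and, Set.mem_ofPred_eq] at ha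
          exact E.uniq _ _ _ hab ha
      have h7 : x ∈ Finset.univ.filter (fun v => H.Adj y v) := by simpa using h.adj.symm
      have h8 := Finset.card_erase_add_one h7
      have h9 := hD y
      omega
    have h5 := Finset.card_filter_add_card_filter_not (s := (Finset.univ : Finset κ))
      (fun b => E.N b y = y)
    rw [Finset.card_univ, hκ] at h5
    omega
  -- double counting
  have hdc : ∑ w ∈ Y, (Finset.univ.filter (fun b => E.N b w = w)).card =
      ∑ b : κ, (Y.filter (fun w => E.N b w = w)).card := by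
    simp only [Finset.card_filter]
    exact Finset.sum_comm
  have hup : ∑ b : κ, (Y.filter (fun w => E.N b w = w)).card ≤ 2 * U.card := by
    have : ∑ b : κ, (Y.filter (fun w => E.N b w = w)).card =
        ∑ b ∈ U, (Y.filter (fun w => E.N b w = w)).card := by
      symm
      apply Finset.sum_subset (Finset.subset_univ _)
      intro b _ hb
      rw [Finset.card_eq_zero, Finset.filter_eq_empty_iff]
      intro w hw hbw
      exact hb (by simp only [hU, Finset.mem_filter, Finset.mem_univ, true_and]; exact ⟨w, hw, hbw⟩)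
    rw [this]
    calc _ ≤ ∑ b ∈ U, 2 := Finset.sum_le_sum (fun b _ => h2 b)
      _ = 2 * U.card := by rw [Finset.sum_const, smul_eq_mul, mul_comm]
  have hlow : 2 * Y.card + 1 ≤ ∑ w ∈ Y, (Finset.univ.filter (fun b => E.N b w = w)).card := by
    rw [← Finset.add_sum_erase _ _ hy0]
    have h10 : (Y.erase y).card * 2 ≤
        ∑ w ∈ Y.erase y, (Finset.univ.filter (fun b => E.N b w = w)).card := by
      rw [← smul_eq_mul]
      exact Finset.card_nsmul_le_sum _ _ _ (fun w _ => hmiss w)
    have h11 := Finset.card_erase_add_one hy0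
    omega
  omega


/-- The orbit set. -/
def orb (s t : W → W) (x : W) : Set W := {u | Reach s t x u}

theorem orb_self (s t : W → W) (x : W) : x ∈ orb s t x := Reach.refl _ _ _

theorem orb_left (s t : W → W) (x : W) : ∀ u ∈ orb s t x, s u ∈ orb s t x :=
  fun _ hu => Reach.left hu

theorem orb_right (s t : W → W) (x : W) : ∀ u ∈ orb s t x, t u ∈ orb s t x :=
  fun _ hu => Reach.right hu

/-- Claim B: if `x` misses a free colour, the colouring can be completed. -/
theorem claimB [Fintype κ] [Fintype W] (hm : ∀ u, m (m u) = u) (h : St H m E x y) {D : ℕ}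
    (hD : ∀ u, (Finset.univ.filter (fun v => H.Adj u v)).card ≤ D)
    (hκ : Fintype.card κ = D + 2) {f : κ} (hf : Fr m E f) (hx : E.N f x = x) : Done κ H m := by
  by_contra hnd
  obtain ⟨b, y1, y2, _, n12, _, _, ⟨bs1, F1⟩, ⟨bs2, F2⟩, _, b1, b2, _⟩ := pigeon hm h hD hκ hnd
  have h1x : y1 ≠ x := F1.ne h
  have h2x : y2 ≠ x := F2.ne h
  -- one of the two is not in the orbit of `x`
  obtain ⟨u0, bs0, F0, b0, hu0⟩ : ∃ u0 bs0, Fan m E.N x y bs0 u0 ∧ E.N b u0 = u0 ∧
      ¬ Reach (E.N f) (E.N b) x u0 := by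
    by_cases r1 : Reach (E.N f) (E.N b) x y1
    · by_cases r2 : Reach (E.N f) (E.N b) x y2
      · exact (three_fixed (E.inv f) (E.inv b) (Or.inl hx) (Or.inr b1) (Or.inr b2) r1 r2
          h1x.symm h2x.symm n12).elim
      · exact ⟨y2, bs2, F2, b2, r2⟩
    · exact ⟨y1, bs1, F1, b1, r1⟩
  set K : Set W := orb (E.N f) (E.N b) u0 with hK
  have hxK : x ∉ K := fun hxK => hu0 (Reach.symm (E.inv f) (E.inv b) hxK)
  have ha := orb_left (E.N f) (E.N b) u0
  have hb := orb_right (E.N f) (E.N b) u0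
  have hst := h.kempe hf ha hb
  set E' := E.kempe f b K ha hb with hE'
  have hEx : ∀ c, E'.N c x = E.N c x := fun c => kempe_apply_not_mem E ha hb hxK c
  have htr : Fan m E'.N x y bs0 u0 ∨ ∃ bs' u', Fan m E'.N x y bs' u' ∧ E'.N f u' = u' := by
    refine Fan.transfer (E := E) (fun _ => True) ?_ F0 (fun _ _ => trivial)
    intro bs z c _ _ hcz hcx
    by_cases hz : z ∈ K
    · by_cases hcf : c = f
      · subst hcf; exact absurd hx hcx
      by_cases hcb : c = b
      · subst hcb
        right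
        rw [hE', kempe_apply_mem E ha hb hz, Equiv.swap_apply_left, hcz]
      · left
        refine ⟨?_, hEx c⟩
        rw [hE', kempe_apply_mem E ha hb hz, Equiv.swap_apply_of_ne_of_ne hcf hcb, hcz]
    · left
      exact ⟨by rw [hE', kempe_apply_not_mem E ha hb hz, hcz], hEx c⟩
  rcases htr with F | ⟨bs', u', F, hu'⟩
  · refine hnd (claimA hm hst F (a := f) (by rw [hEx, hx]) ?_)
    rw [hE', kempe_apply_mem E ha hb (orb_self _ _ _), Equiv.swap_apply_left, b0]
  · exact hnd (claimA hm hst F (a := f) (by rw [hEx, hx]) hu')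

/-- Claim C: if a fan vertex misses a free colour, the colouring can be completed. -/
theorem claimC [Fintype κ] [Fintype W] (hm : ∀ u, m (m u) = u) (h : St H m E x y) {D : ℕ}
    (hD : ∀ u, (Finset.univ.filter (fun v => H.Adj u v)).card ≤ D)
    (hκ : Fintype.card κ = D + 2) {f : κ} (hf : Fr m E f) {bs : List κ} {w : W}
    (F : Fan m E.N x y bs w) (hw : E.N f w = w) : Done κ H m := by
  obtain ⟨E', hst, _, i2, _, hS, _⟩ := F.shift hm h
  exact claimB hm (hst.symm hm) hD hκ (hS.fr hf) (i2 f hw)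

/-- Claim D. -/
theorem claimD [Fintype κ] [Fintype W] (hm : ∀ u, m (m u) = u) (h : St H m E x y) {D : ℕ}
    (hD : ∀ u, (Finset.univ.filter (fun v => H.Adj u v)).card ≤ D)
    (hκ : Fintype.card κ = D + 2) {f b : κ} (hf : Fr m E f) {bs : List κ} {w : W}
    (F : Fan m E.N x y bs w) (hb : b ∉ bs) (hw : E.N b w = w) {K : Set W}
    (ka : ∀ u ∈ K, E.N f u ∈ K) (kb : ∀ u ∈ K, E.N b u ∈ K) (hwK : w ∈ K)
    (hK : ∀ u ∈ K, E.N b u = m u → m u = u) : Done κ H m := by
  by_contra hnd
  have hst := h.kempe hf ka kb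
  set E' := E.kempe f b K ka kb with hE'
  have hcf : ∀ c ∈ bs, c ≠ f := by
    rintro c hc rfl
    obtain ⟨bs', z, hz, _, hz2, _, _⟩ := F.split hc
    exact hnd (claimC hm h hD hκ hf hz hz2)
  have heq : ∀ c, c ≠ f → c ≠ b → ∀ v, E'.N c v = E.N c v := by
    intro c h1 h2 v
    by_cases hv : v ∈ K
    · rw [hE', kempe_apply_mem E ka kb hv, Equiv.swap_apply_of_ne_of_ne h1 h2]
    · rw [hE', kempe_apply_not_mem E ka kb hv]
  have htr : Fan m E'.N x y bs w ∨ ∃ bs' u', Fan m E'.N x y bs' u' ∧ E'.N f u' = u' := by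
    refine Fan.transfer (E := E) (fun c => c ≠ f ∧ c ≠ b) ?_ F
      (fun c hc => ⟨hcf c hc, fun h1 => hb (h1 ▸ hc)⟩)
    intro bs z c hc _ hcz _
    left
    exact ⟨by rw [heq c hc.1 hc.2, hcz], heq c hc.1 hc.2 x⟩
  rcases htr with F' | ⟨bs', u', F', hu'⟩
  · refine hnd (claimC hm hst hD hκ (hf.kempe ka kb hK) F' ?_)
    rw [hE', kempe_apply_mem E ka kb hwK, Equiv.swap_apply_left, hw]
  · exact hnd (claimC hm hst hD hκ (hf.kempe ka kb hK) F' hu')

/-- Claim E: the Kempe chain of a fan vertex missing `b` contains a matching edge of colour `b`. -/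
theorem claimE [Fintype κ] [Fintype W] (hm : ∀ u, m (m u) = u) (h : St H m E x y) {D : ℕ}
    (hD : ∀ u, (Finset.univ.filter (fun v => H.Adj u v)).card ≤ D)
    (hκ : Fintype.card κ = D + 2) {f b : κ} (hf : Fr m E f) {bs : List κ} {w : W}
    (F : Fan m E.N x y bs w) (hw : E.N b w = w) (hnd : ¬ Done κ H m) :
    ∃ u, Reach (E.N f) (E.N b) w u ∧ E.N b u = m u ∧ m u ≠ u := by
  by_contra hcon
  push Not at hcon
  set K : Set W := orb (E.N f) (E.N b) w with hKdef
  have ka := orb_left (E.N f) (E.N b) w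
  have kb := orb_right (E.N f) (E.N b) w
  have hwK : w ∈ K := orb_self _ _ _
  have hK : ∀ u ∈ K, E.N b u = m u → m u = u := fun u hu h1 => hcon u hu h1
  by_cases hb : b ∈ bs
  swap
  · exact hnd (claimD hm h hD hκ hf F hb hw ka kb hwK hK)
  obtain ⟨bs1, z, Fz, hb1, hbz, hbx, hbm⟩ := F.split hb
  by_cases hxK : x ∈ K
  swap
  · -- swap the chain of `w`
    have hst := h.kempe hf ka kb
    set E' := E.kempe f b K ka kb with hE'
    have hEx : ∀ c, E'.N c x = E.N c x := fun c => kempe_apply_not_mem E ka kb hxK c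
    have htr : Fan m E'.N x y bs w ∨ ∃ bs' u', Fan m E'.N x y bs' u' ∧ E'.N f u' = u' := by
      refine Fan.transfer (E := E) (fun _ => True) ?_ F (fun _ _ => trivial)
      intro bs z c _ Fz hcz hcx
      by_cases hz : z ∈ K
      · by_cases hcf : c = f
        · subst hcf; exact (hnd (claimC hm h hD hκ hf Fz hcz)).elim
        by_cases hcb : c = b
        · subst hcb
          right
          rw [hE', kempe_apply_mem E ka kb hz, Equiv.swap_apply_left, hcz]
        · left
          refine ⟨?_, hEx c⟩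
          rw [hE', kempe_apply_mem E ka kb hz, Equiv.swap_apply_of_ne_of_ne hcf hcb, hcz]
      · left
        exact ⟨by rw [hE', kempe_apply_not_mem E ka kb hz, hcz], hEx c⟩
    rcases htr with F' | ⟨bs', u', F', hu'⟩
    · refine hnd (claimC hm hst hD hκ (hf.kempe ka kb hK) F' ?_)
      rw [hE', kempe_apply_mem E ka kb hwK, Equiv.swap_apply_left, hw]
    · exact hnd (claimC hm hst hD hκ (hf.kempe ka kb hK) F' hu')
  -- now `x ∈ K`; `z ∉ K`
  have hzK : z ∉ K := fun hz => hnd (claimD hm h hD hκ hf Fz hb1 hbz ka kb hz hK)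
  have hzx : z ≠ x := Fz.ne h
  set zs : W := E.N b x with hzs
  have hzsK : zs ∈ K := kb x hxK
  have hzsz : zs ≠ z := fun h1 => hzK (h1 ▸ hzsK)
  have hwx : w ≠ x := F.ne h
  have hwzs : w ≠ zs := by
    intro h1
    have : E.N b w = x := by rw [h1, hzs, E.inv]
    exact hwx (hw.symm.trans this)
  have hfbs : f ∉ bs1 := by
    intro hc
    obtain ⟨bs', z', hz', _, hz2, _, _⟩ := Fz.split hc
    exact hnd (claimC hm h hD hκ hf hz' hz2)
  have hfb : f ≠ b := by
    rintro rfl
    exact hnd (claimC hm h hD hκ hf Fz hbz)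
  -- shift to `z` and then to `zs`
  obtain ⟨E1, hst1, i3, i2, i4, hS1, i1⟩ := Fz.shift hm h
  have e1 : E1.N b = E.N b := i3 b hb1
  have e1f : E1.N f = E.N f := i3 f hfbs
  obtain ⟨E2, hst2, k1, k2, k3, k4, k5, hS2⟩ := hst1.shift hm b (by rw [e1, hbz])
    (by rw [e1]; exact hbx) (by rw [e1]; exact hbm)
  rw [e1] at hst2 k4 k5
  rw [← hzs] at hst2 k4 k5
  have e2f : E2.N f = E.N f := by rw [k1 f hfb, e1f]
  -- the involution with the edge `x zs` removed
  set t : W → W := fun u => if u = x ∨ u = zs then u else E.N b u with ht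
  have htinv : ∀ u, t (t u) = u := by
    intro u
    by_cases hu : u = x ∨ u = zs
    · simp [ht, hu]
    · have hu' : ¬ (E.N b u = x ∨ E.N b u = zs) := by
        rintro (h1 | h1)
        · exact hu (Or.inr (by rw [hzs, ← h1, E.inv]))
        · exact hu (Or.inl (by rw [← E.inv b u, h1, hzs, E.inv]))
      simp only [ht, hu, hu', if_false, E.inv]
  set K1 : Set W := orb (E.N f) t zs with hK1
  have l1 := orb_left (E.N f) t zs
  have l2 := orb_right (E.N f) t zs
  have hzsK1 : zs ∈ K1 := orb_self _ _ _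
  have hsub : ∀ u ∈ K1, u ∈ K := by
    intro u hu
    refine Reach.mem_of_closed (K := K) hu ka ?_ hzsK
    intro v hv
    simp only [ht]
    split_ifs
    · exact hv
    · exact kb v hv
  have hxK1 : x ∉ K1 := by
    intro hx1
    have hcl : ∀ u ∈ K1, E.N b u ∈ K1 := by
      intro u hu
      by_cases h1 : u = x
      · rw [h1, ← hzs]; exact hzsK1
      by_cases h2 : u = zs
      · rw [h2, hzs, E.inv]; exact hx1
      have := l2 u hu
      simpa only [ht, h1, h2, or_self, if_false] using this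
    have hwK1 : w ∈ K1 := by
      have hxw : Reach (E.N f) (E.N b) x w := Reach.symm (E.inv f) (E.inv b) hxK
      exact hxw.mem_of_closed l1 hcl hx1
    exact three_fixed (E.inv f) htinv (p := zs) (q := x) (r := w) (Or.inr (by simp [ht]))
      (Or.inr (by simp [ht])) (Or.inr (by simp [ht, hwx, hwzs, hw])) hx1 hwK1
      hbx hwzs.symm hwx.symm
  have hzK1 : z ∉ K1 := fun h1 => hzK (hsub z h1)
  have hE2b : ∀ u ∈ K1, E2.N b u = t u := by
    intro u hu
    have u1 : u ≠ x := fun h1 => hxK1 (h1 ▸ hu)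
    have u2 : u ≠ z := fun h1 => hzK1 (h1 ▸ hu)
    by_cases u3 : u = zs
    · rw [u3, k4]; simp [ht]
    · rw [k5 u u1 u2 u3]
      simp only [ht, u1, u3, or_self, if_false]
  have m1 : ∀ u ∈ K1, E2.N f u ∈ K1 := fun u hu => by rw [e2f]; exact l1 u hu
  have m2 : ∀ u ∈ K1, E2.N b u ∈ K1 := fun u hu => by rw [hE2b u hu]; exact l2 u hu
  have hS : SameM m E E2 := hS1.trans hS2
  refine hnd (claimD hm hst2 hD hκ (hS.fr hf) (bs := []) (w := zs) Fan.base (by simp) k4
    m1 m2 hzsK1 ?_)
  intro u hu hbu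
  by_contra hne
  exact hne (hK u (hsub u hu) ((hS b u hne).1 hbu))

/-- The main step: one more edge can be coloured. -/
theorem main_step [Fintype κ] [Fintype W] (hm : ∀ u, m (m u) = u) (h : St H m E x y) {D : ℕ}
    (hD : ∀ u, (Finset.univ.filter (fun v => H.Adj u v)).card ≤ D)
    (hκ : Fintype.card κ = D + 2) {f : κ} (hf : Fr m E f) : Done κ H m := by
  by_contra hnd
  obtain ⟨b, y1, y2, y3, n12, n13, n23, ⟨bs1, F1⟩, ⟨bs2, F2⟩, ⟨bs3, F3⟩, b1, b2, b3⟩ :=
    pigeon hm h hD hκ hnd
  obtain ⟨u1, r1, c1, d1⟩ := claimE hm h hD hκ hf F1 b1 hnd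
  obtain ⟨u2, r2, c2, d2⟩ := claimE hm h hD hκ hf F2 b2 hnd
  obtain ⟨u3, r3, c3, d3⟩ := claimE hm h hD hκ hf F3 b3 hnd
  have hsame : ∀ u, E.N b u = m u → m u ≠ u → Reach (E.N f) (E.N b) u1 u := by
    intro u hu1 hu2
    rcases h.rb b u1 u c1 d1 hu1 hu2 with rfl | h1
    · exact Reach.refl _ _ _
    · rw [h1, ← c1]
      exact (Reach.refl _ _ _).right
  have r12 : Reach (E.N f) (E.N b) y1 y2 :=
    (r1.trans (hsame u2 c2 d2)).trans (r2.symm (E.inv f) (E.inv b))
  have r13 : Reach (E.N f) (E.N b) y1 y3 :=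
    (r1.trans (hsame u3 c3 d3)).trans (r3.symm (E.inv f) (E.inv b))
  exact three_fixed (E.inv f) (E.inv b) (Or.inr b1) (Or.inr b2) (Or.inr b3) r12 r13 n12 n13 n23

end Pool.TC
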