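import Pool.Agent.Helper83.TC.Dihedral

/-!
Edge colourings as families of involutions; a Vizing type theorem in which a
prescribed matching is rainbow.
-/

namespace Pool.TC

open Classical

variable {W κ : Type*}

/-- A proper partial edge colouring of a simple graph on `W` with colours `κ`: the edges of
colour `a` are the pairs `u`, `N a u` with `N a u ≠ u`. -/
structure EC (κ W : Type*) where
  N : κ → W → W
  inv : ∀ a u, N a (N a u) = u
  uniq : ∀ a b u, N a u = N b u → N a u ≠ u → a = b

/-- Kempe change on a set closed under the colours `a`, `b`. -/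
noncomputable def EC.kempe (E : EC κ W) (a b : κ) (K : Set W)
    (ha : ∀ u ∈ K, E.N a u ∈ K) (hb : ∀ u ∈ K, E.N b u ∈ K) : EC κ W where
  N c u := if u ∈ K then E.N (Equiv.swap a b c) u else E.N c u
  inv := by
    intro c u
    have ha' : ∀ u, u ∉ K → E.N a u ∉ K := fun u hu h => hu (by simpa [E.inv] using ha _ h)
    have hb' : ∀ u, u ∉ K → E.N b u ∉ K := fun u hu h => hu (by simpa [E.inv] using hb _ h)
    by_cases hca : c = a
    · subst hca
      by_cases hu : u ∈ K
      · simp [hu, hb u hu, E.inv]
      · simp [hu, ha' u hu, E.inv]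
    by_cases hcb : c = b
    · subst hcb
      by_cases hu : u ∈ K
      · simp [hu, ha u hu, E.inv]
      · simp [hu, hb' u hu, E.inv]
    simp [Equiv.swap_apply_of_ne_of_ne hca hcb, E.inv]
  uniq := by
    intro c d u h1 h2
    by_cases hu : u ∈ K
    · simp only [hu, if_true] at h1 h2
      exact (Equiv.swap a b).injective (E.uniq _ _ _ h1 h2)
    · simp only [hu, if_false] at h1 h2
      exact E.uniq _ _ _ h1 h2

/-- Adding an edge `x z` of colour `b`. -/
noncomputable def EC.add (E : EC κ W) (x z : W) (b : κ) (hxz : x ≠ z)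
    (hx : E.N b x = x) (hz : E.N b z = z) (hu : ∀ a, E.N a x ≠ z) : EC κ W where
  N c u := if c = b then (if u = x then z else if u = z then x else E.N c u) else E.N c u
  inv := by
    intro c u
    by_cases hc : c = b
    · subst hc
      by_cases h1 : u = x
      · subst h1; simp [hxz.symm]
      by_cases h2 : u = z
      · subst h2; simp [h1]
      have h3 : E.N c u ≠ x := fun h => h1 (by rw [← hx, ← h, E.inv])
      have h4 : E.N c u ≠ z := fun h => h2 (by rw [← hz, ← h, E.inv])
      simp [h1, h2, h3, h4, E.inv]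
    · simp [hc, E.inv]
  uniq := by
    have hu' : ∀ a, E.N a z ≠ x := fun a h => hu a (by rw [← h, E.inv])
    intro c d u h1 h2
    by_cases hc : c = b <;> by_cases hd : d = b
    · rw [hc, hd]
    · exfalso
      simp only [hc, hd, if_true, if_false] at h1 h2
      by_cases e1 : u = x
      · subst e1; simp only [if_true] at h1; exact hu d h1.symm
      by_cases e2 : u = z
      · subst e2; simp only [e1, if_true, if_false] at h1; exact hu' d h1.symm
      simp only [e1, e2, if_false] at h1 h2
      exact hd (E.uniq _ _ _ h1 h2).symm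
    · exfalso
      simp only [hd, if_true] at h1 h2
      simp only [hc, if_false] at h1 h2
      by_cases e1 : u = x
      · subst e1; simp only [if_true] at h1; exact hu c h1
      by_cases e2 : u = z
      · subst e2; simp only [e1, if_true, if_false] at h1; exact hu' c h1
      simp only [e1, e2, if_false] at h1 h2
      exact hc (E.uniq _ _ _ h1 h2)
    · simp only [hc, hd, if_false] at h1 h2
      exact E.uniq _ _ _ h1 h2

/-- Removing the edge of colour `b` at `x`. -/
noncomputable def EC.rem (E : EC κ W) (x : W) (b : κ) : EC κ W where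
  N c u := if c = b ∧ (u = x ∨ u = E.N b x) then u else E.N c u
  inv := by
    intro c u
    by_cases h : c = b ∧ (u = x ∨ u = E.N b x)
    · simp [h]
    · have h' : ¬ (c = b ∧ (E.N c u = x ∨ E.N c u = E.N b x)) := by
        rintro ⟨rfl, h1 | h1⟩
        · exact h ⟨rfl, Or.inr (by rw [← h1, E.inv])⟩
        · exact h ⟨rfl, Or.inl (by rw [← E.inv c u, h1, E.inv])⟩
      simp only [h, h', if_false, E.inv]
  uniq := by
    intro c d u h1 h2
    by_cases hc : c = b ∧ (u = x ∨ u = E.N b x)
    · simp [hc] at h2
    by_cases hd : d = b ∧ (u = x ∨ u = E.N b x)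
    · simp only [hc, hd, if_true, if_false] at h1 h2
      exact absurd h1 h2
    · simp only [hc, hd, if_false] at h1 h2
      exact E.uniq _ _ _ h1 h2

/-- A complete rainbow colouring of `H`: the edges of the matching `m` get distinct colours. -/
structure Good (H : SimpleGraph W) (m : W → W) (E : EC κ W) : Prop where
  cov : ∀ u v, H.Adj u v → ∃ a, E.N a u = v
  sub : ∀ a u, E.N a u ≠ u → H.Adj u (E.N a u)
  rb : ∀ a u v, E.N a u = m u → m u ≠ u → E.N a v = m v → m v ≠ v → v = u ∨ v = m u

/-- A colouring of `H` minus the edge `x y`. -/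
structure St (H : SimpleGraph W) (m : W → W) (E : EC κ W) (x y : W) : Prop where
  adj : H.Adj x y
  ny : m x ≠ y
  unc : ∀ a, E.N a x ≠ y
  cov : ∀ u v, H.Adj u v → (∃ a, E.N a u = v) ∨ (u = x ∧ v = y) ∨ (u = y ∧ v = x)
  sub : ∀ a u, E.N a u ≠ u → H.Adj u (E.N a u)
  rb : ∀ a u v, E.N a u = m u → m u ≠ u → E.N a v = m v → m v ≠ v → v = u ∨ v = m u

/-- The colour `f` does not occur on the matching. -/
def Fr (m : W → W) (E : EC κ W) (f : κ) : Prop := ∀ u, E.N f u = m u → m u = u

/-- The two colourings agree on the matching. -/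
def SameM (m : W → W) (E E' : EC κ W) : Prop :=
  ∀ c u, m u ≠ u → (E'.N c u = m u ↔ E.N c u = m u)

theorem SameM.rb {m : W → W} {E E' : EC κ W} (h : SameM m E E')
    (hr : ∀ a u v, E.N a u = m u → m u ≠ u → E.N a v = m v → m v ≠ v → v = u ∨ v = m u) :
    ∀ a u v, E'.N a u = m u → m u ≠ u → E'.N a v = m v → m v ≠ v → v = u ∨ v = m u :=
  fun a u v h1 h2 h3 h4 => hr a u v ((h a u h2).1 h1) h2 ((h a v h4).1 h3) h4

theorem SameM.fr {m : W → W} {E E' : EC κ W} (h : SameM m E E') {f : κ} (hf : Fr m E f) :
    Fr m E' f := by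
  intro u hu
  by_contra hne
  exact hne (hf u ((h f u hne).1 hu))

theorem SameM.trans {m : W → W} {E E' E'' : EC κ W} (h : SameM m E E') (h' : SameM m E' E'') :
    SameM m E E'' := fun c u hu => (h' c u hu).trans (h c u hu)

variable {H : SimpleGraph W} {m : W → W} {E : EC κ W} {x y : W}

theorem St.symm (hm : ∀ u, m (m u) = u) (h : St H m E x y) : St H m E y x where
  adj := h.adj.symm
  ny := fun h1 => h.ny (by rw [← h1, hm])
  unc := fun a h1 => h.unc a (by rw [← h1, E.inv])
  cov := by
    intro u v huv
    rcases h.cov u v huv with h1 | h1 | h1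
    · exact Or.inl h1
    · exact Or.inr (Or.inr h1)
    · exact Or.inr (Or.inl h1)
  sub := h.sub
  rb := h.rb

/-- A colour missing at both ends of the uncoloured edge. -/
theorem St.finish (hm : ∀ u, m (m u) = u) (h : St H m E x y) (a : κ) (hx : E.N a x = x)
    (hy : E.N a y = y) : ∃ E' : EC κ W, Good H m E' := by
  have hxy : x ≠ y := h.adj.ne
  refine ⟨E.add x y a hxy hx hy h.unc, ?_, ?_, ?_⟩
  · intro u v huv
    rcases h.cov u v huv with ⟨b, hb⟩ | ⟨rfl, rfl⟩ | ⟨rfl, rfl⟩
    · refine ⟨b, ?_⟩
      show (if b = a then (if u = x then y else if u = y then x else E.N b u) else E.N b u) = v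
      by_cases hba : b = a
      · subst hba
        have h1 : u ≠ x := by
          rintro rfl
          exact huv.ne (by rw [← hb, hx])
        have h2 : u ≠ y := by
          rintro rfl
          exact huv.ne (by rw [← hb, hy])
        simp [h1, h2, hb]
      · simp [hba, hb]
    · exact ⟨a, by simp [EC.add]⟩
    · exact ⟨a, by simp [EC.add, hxy.symm]⟩
  · intro b u hbu
    change (if b = a then (if u = x then y else if u = y then x else E.N b u) else E.N b u) ≠ u
      at hbu
    show H.Adj u (if b = a then (if u = x then y else if u = y then x else E.N b u) else E.N b u)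
    by_cases hba : b = a
    · subst hba
      by_cases h1 : u = x
      · subst h1; simpa using h.adj
      by_cases h2 : u = y
      · subst h2; simpa [h1] using h.adj.symm
      simp only [h1, h2, if_true, if_false] at hbu ⊢
      exact h.sub _ _ hbu
    · simp only [hba, if_false] at hbu ⊢
      exact h.sub _ _ hbu
  · have hS : SameM m E (E.add x y a hxy hx hy h.unc) := by
      intro c u hu
      show (if c = a then (if u = x then y else if u = y then x else E.N c u) else E.N c u) = m u
        ↔ _
      by_cases hca : c = a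
      · subst hca
        by_cases h1 : u = x
        · subst h1
          simp only [if_true, hx]
          exact ⟨fun h2 => absurd h2.symm h.ny, fun h2 => absurd h2.symm hu⟩
        by_cases h2 : u = y
        · subst h2
          simp only [if_true, h1, if_false, hy]
          exact ⟨fun h3 => absurd (by rw [h3, hm]) h.ny, fun h3 => absurd h3.symm hu⟩
        simp [h1, h2]
      · simp [hca]
    exact hS.rb h.rb

/-- One step of a fan shift. -/
theorem St.shift (hm : ∀ u, m (m u) = u) {z : W} (h : St H m E x z) (b : κ) (hz : E.N b z = z)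
    (hw : E.N b x ≠ x) (hwm : E.N b x ≠ m x) :
    ∃ E' : EC κ W, St H m E' x (E.N b x) ∧ (∀ c, c ≠ b → E'.N c = E.N c) ∧
      E'.N b x = z ∧ E'.N b z = x ∧ E'.N b (E.N b x) = E.N b x ∧
      (∀ u, u ≠ x → u ≠ z → u ≠ E.N b x → E'.N b u = E.N b u) ∧ SameM m E E' := by
  have hxz : x ≠ z := h.adj.ne
  have hwz : E.N b x ≠ z := h.unc b
  have hr1 : (E.rem x b).N b x = x := by simp [EC.rem]
  have hr2 : (E.rem x b).N b z = z := by
    simp [EC.rem, hxz.symm, hwz.symm, hz]
  have hr3 : ∀ a, (E.rem x b).N a x ≠ z := by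
    intro a
    show (if a = b ∧ (x = x ∨ x = E.N b x) then x else E.N a x) ≠ z
    split_ifs
    · exact hxz
    · exact h.unc a
  set E' := (E.rem x b).add x z b hxz hr1 hr2 hr3 with hE'
  have k1 : ∀ c, c ≠ b → E'.N c = E.N c := by
    intro c hc
    funext u
    simp [hE', EC.add, EC.rem, hc]
  have k2 : E'.N b x = z := by simp [hE', EC.add]
  have k3 : E'.N b z = x := by simp [hE', EC.add, hxz.symm]
  have k4 : E'.N b (E.N b x) = E.N b x := by
    simp [hE', EC.add, EC.rem, hw, hwz]
  have k5 : ∀ u, u ≠ x → u ≠ z → u ≠ E.N b x → E'.N b u = E.N b u := by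
    intro u h1 h2 h3
    simp [hE', EC.add, EC.rem, h1, h2, h3]
  have hS : SameM m E E' := by
    intro c u hu
    by_cases hc : c = b
    · subst hc
      by_cases h1 : u = x
      · subst h1
        rw [k2]
        exact ⟨fun h2 => absurd h2.symm h.ny, fun h2 => absurd h2 hwm⟩
      by_cases h2 : u = z
      · subst h2
        rw [k3, hz]
        exact ⟨fun h3 => absurd (by rw [h3, hm]) h.ny, fun h3 => absurd h3.symm hu⟩
      by_cases h3 : u = E.N c x
      · rw [h3] at hu ⊢
        rw [k4, E.inv]
        exact ⟨fun h4 => absurd h4.symm hu, fun h4 => absurd ((hm _).symm.trans (congrArg m h4.symm)) hwm⟩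
      rw [k5 u h1 h2 h3]
    · rw [k1 c hc]
  refine ⟨E', ⟨?_, ?_, ?_, ?_, ?_, ?_⟩, k1, k2, k3, k4, k5, hS⟩
  · exact h.sub _ _ hw
  · exact fun h1 => hwm h1.symm
  · intro a ha
    by_cases hab : a = b
    · subst hab
      rw [k2] at ha
      exact hwz ha.symm
    · rw [k1 a hab] at ha
      exact hab (E.uniq _ _ _ ha (by rw [ha]; exact hw))
  · intro u v huv
    rcases h.cov u v huv with ⟨a, ha⟩ | ⟨rfl, rfl⟩ | ⟨rfl, rfl⟩
    · by_cases hab : a = b
      · subst hab
        by_cases h1 : u = x
        · subst h1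
          right; left
          exact ⟨rfl, ha.symm⟩
        by_cases h2 : u = z
        · subst h2
          exact absurd (by rw [← ha, hz]) huv.ne
        by_cases h3 : u = E.N a x
        · right; right
          refine ⟨h3, ?_⟩
          rw [← ha, h3, E.inv]
        · exact Or.inl ⟨a, by rw [k5 u h1 h2 h3, ha]⟩
      · exact Or.inl ⟨a, by rw [k1 a hab, ha]⟩
    · exact Or.inl ⟨b, k2⟩
    · exact Or.inl ⟨b, k3⟩
  · intro a u hau
    by_cases hab : a = b
    · subst hab
      by_cases h1 : u = x
      · subst h1; rw [k2]; exact h.adj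
      by_cases h2 : u = z
      · subst h2; rw [k3]; exact h.adj.symm
      by_cases h3 : u = E.N a x
      · rw [h3] at hau
        exact absurd k4 hau
      rw [k5 u h1 h2 h3] at hau ⊢
      exact h.sub _ _ hau
    · rw [k1 a hab] at hau ⊢
      exact h.sub _ _ hau
  · exact hS.rb h.rb

/-- Fans at `x` starting with `y0`: the list of used colours and the last vertex. -/
inductive Fan (m : W → W) (N : κ → W → W) (x y0 : W) : List κ → W → Prop
  | base : Fan m N x y0 [] y0
  | step {bs : List κ} {z : W} {b : κ} : Fan m N x y0 bs z → N b z = z → N b x ≠ x →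
      N b x ≠ m x → b ∉ bs → Fan m N x y0 (b :: bs) (N b x)

theorem Fan.ne (h : St H m E x y) {bs : List κ} {w : W} (hf : Fan m E.N x y bs w) : w ≠ x := by
  cases hf with
  | base => exact h.adj.ne.symm
  | step _ _ h1 _ _ => exact h1

/-- Shifting along a fan. -/
theorem Fan.shift (hm : ∀ u, m (m u) = u) (h : St H m E x y) {bs : List κ} {w : W}
    (hf : Fan m E.N x y bs w) :
    ∃ E' : EC κ W, St H m E' x w ∧ (∀ a, a ∉ bs → E'.N a = E.N a) ∧
      (∀ a, E.N a w = w → E'.N a w = w) ∧ (∀ a, E.N a x = x → E'.N a x = x) ∧ SameM m E E' ∧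
      (∀ a v, v ≠ x → v ≠ y → (∀ c ∈ bs, E.N c x ≠ v) → E'.N a v = E.N a v) := by
  induction hf with
  | base => exact ⟨E, h, fun _ _ => rfl, fun _ h => h, fun _ h => h, fun _ _ _ => Iff.rfl,
      fun _ _ _ _ _ => rfl⟩
  | @step bs z b hfz hz hw hwm hb ih =>
    obtain ⟨E1, hst, i3, i2, i4, hS, i1⟩ := ih
    have e1 : E1.N b = E.N b := i3 b hb
    obtain ⟨E2, hst2, k1, k2, k3, k4, k5, hS2⟩ := hst.shift hm b (by rw [e1, hz])
      (by rw [e1]; exact hw) (by rw [e1]; exact hwm)
    rw [e1] at hst2 k4 k5
    have hwx : ∀ c ∈ bs, E.N c x ≠ E.N b x := by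
      intro c hc he
      have := E.uniq _ _ _ he (by rw [he]; exact hw)
      exact hb (this ▸ hc)
    have hwy : E.N b x ≠ y := h.unc b
    refine ⟨E2, hst2, ?_, ?_, ?_, hS.trans hS2, ?_⟩
    · intro a ha
      rw [List.mem_cons, not_or] at ha
      rw [k1 a ha.1, i3 a ha.2]
    · intro a ha
      by_cases hab : a = b
      · subst hab; exact k4
      · rw [k1 a hab, i1 a _ hw hwy hwx, ha]
    · intro a ha
      by_cases hab : a = b
      · subst hab; exact absurd ha hw
      · rw [k1 a hab, i4 a ha]
    · intro a v v1 v2 v3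
      have v4 : E1.N a v = E.N a v := i1 a v v1 v2 (fun c hc => v3 c (List.mem_cons_of_mem _ hc))
      by_cases hab : a = b
      · subst hab
        have v5 : v ≠ E.N a x := fun h5 => v3 a List.mem_cons_self h5.symm
        have v6 : v ≠ z := by
          cases hfz with
          | base => exact v2
          | @step bs' z' b' _ _ _ _ _ =>
            exact fun h6 => v3 b' (by simp) h6.symm
        rw [k5 v v1 v6 v5, ← v4, e1]
      · rw [k1 a hab, v4]

end Pool.TC
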