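import Mathlib

/-!
Orbits of two involutions: at most two points of an orbit are fixed by one of them.
-/

namespace Pool.TC

variable {W : Type*}

/-- `Reach s t x y`: `y` is obtained from `x` by applying the maps `s`, `t` finitely often. -/
def Reach (s t : W → W) (x y : W) : Prop :=
  Relation.ReflTransGen (fun a b => b = s a ∨ b = t a) x y

theorem Reach.refl (s t : W → W) (x : W) : Reach s t x x := Relation.ReflTransGen.refl

theorem Reach.left {s t : W → W} {x y : W} (h : Reach s t x y) : Reach s t x (s y) :=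
  Relation.ReflTransGen.tail h (Or.inl rfl)

theorem Reach.right {s t : W → W} {x y : W} (h : Reach s t x y) : Reach s t x (t y) :=
  Relation.ReflTransGen.tail h (Or.inr rfl)

theorem Reach.trans {s t : W → W} {x y z : W} (h : Reach s t x y) (h' : Reach s t y z) :
    Reach s t x z := Relation.ReflTransGen.trans h h'

/-- A closed set containing `x` contains everything reachable from `x`. -/
theorem Reach.mem_of_closed {s t : W → W} {x y : W} (h : Reach s t x y) {K : Set W}
    (hs : ∀ u ∈ K, s u ∈ K) (ht : ∀ u ∈ K, t u ∈ K) (hx : x ∈ K) : y ∈ K := by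
  induction h with
  | refl => exact hx
  | tail _ hbc ih =>
    rcases hbc with rfl | rfl
    · exact hs _ ih
    · exact ht _ ih

theorem Reach.symm {s t : W → W} (hs : ∀ u, s (s u) = u) (ht : ∀ u, t (t u) = u) {x y : W}
    (h : Reach s t x y) : Reach s t y x := by
  induction h with
  | refl => exact Reach.refl _ _ _
  | @tail b c _ hbc ih =>
    rcases hbc with rfl | rfl
    · have h1 : Reach s t (s b) (s (s b)) := (Reach.refl s t (s b)).left
      rw [hs] at h1
      exact h1.trans ih
    · have h1 : Reach s t (t b) (t (t b)) := (Reach.refl s t (t b)).right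
      rw [ht] at h1
      exact h1.trans ih

theorem Reach.swap {s t : W → W} {x y : W} (h : Reach s t x y) : Reach t s x y := by
  induction h with
  | refl => exact Reach.refl _ _ _
  | tail _ hbc ih =>
    rcases hbc with rfl | rfl
    · exact ih.right
    · exact ih.left

/-- The arithmetic behind the lemma. -/
theorem arith {L k l : ℤ} (hk : ¬ L ∣ k) (hl : ¬ L ∣ l) (hkl : ¬ L ∣ (k - l))
    (h1 : L ∣ 2 * k ∨ L ∣ 2 * k + 1) (h2 : L ∣ 2 * l ∨ L ∣ 2 * l + 1) : False := by
  rcases h1 with h1 | h1 <;> rcases h2 with h2 | h2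
  · obtain ⟨a, ha⟩ := h1
    obtain ⟨b, hb⟩ := h2
    rcases Int.even_or_odd' a with ⟨a', rfl | rfl⟩
    · exact hk ⟨a', by linarith⟩
    rcases Int.even_or_odd' b with ⟨b', rfl | rfl⟩
    · exact hl ⟨b', by linarith⟩
    · exact hkl ⟨a' - b', by linarith⟩
  · obtain ⟨a, ha⟩ := h1
    obtain ⟨b, hb⟩ := h2
    refine hk ⟨k * b - a * l, ?_⟩
    have : k = k * (2 * l + 1) - (2 * k) * l := by ring
    rw [ha, hb] at this
    linear_combination this
  · obtain ⟨a, ha⟩ := h1
    obtain ⟨b, hb⟩ := h2
    refine hl ⟨l * a - b * k, ?_⟩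
    have : l = l * (2 * k + 1) - (2 * l) * k := by ring
    rw [ha, hb] at this
    linear_combination this
  · obtain ⟨a, ha⟩ := h1
    obtain ⟨b, hb⟩ := h2
    refine hkl ⟨(k - l) * b - (a - b) * l, ?_⟩
    have h3 : 2 * (k - l) = L * (a - b) := by linarith
    have : k - l = (k - l) * (2 * l + 1) - (2 * (k - l)) * l := by ring
    rw [h3, hb] at this
    linear_combination this

theorem three_fixed_aux {s t : W → W} (hs : ∀ u, s (s u) = u) (ht : ∀ u, t (t u) = u)
    {p q r : W} (hp : s p = p) (hq : s q = q ∨ t q = q) (hr : s r = r ∨ t r = r)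
    (hpq : Reach s t p q) (hpr : Reach s t p r) (npq : p ≠ q) (npr : p ≠ r) (nqr : q ≠ r) :
    False := by
  let S : Equiv.Perm W := ⟨s, s, hs, hs⟩
  let T : Equiv.Perm W := ⟨t, t, ht, ht⟩
  let R : Equiv.Perm W := S * T
  have hSS : S * S = 1 := Equiv.ext fun u => hs u
  have hST : T = S * R := by
    show T = S * (S * T)
    rw [← mul_assoc, hSS, one_mul]
  have hTT : T * T = 1 := Equiv.ext fun u => ht u
  have hSi : S⁻¹ = S := inv_eq_of_mul_eq_one_left hSS
  have hTi : T⁻¹ = T := inv_eq_of_mul_eq_one_left hTT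
  have hconj : S * R * S⁻¹ = R⁻¹ := by
    show S * (S * T) * S⁻¹ = (S * T)⁻¹
    rw [mul_inv_rev, hTi, ← mul_assoc, hSS, one_mul]
  have hpow : ∀ k : ℤ, S * R ^ k = R ^ (-k) * S := by
    intro k
    have := congrArg (· ^ k) hconj
    simp only [conj_zpow, inv_zpow'] at this
    rw [mul_inv_eq_iff_eq_mul] at this
    exact this
  have hSp : S p = p := hp
  have hSk : ∀ k : ℤ, s ((R ^ k) p) = (R ^ (-k)) p := by
    intro k
    have := congrArg (fun g : Equiv.Perm W => g p) (hpow k)
    simp only [Equiv.Perm.mul_apply, hSp] at this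
    exact this
  have hTk : ∀ k : ℤ, t ((R ^ k) p) = (R ^ (-(k + 1))) p := by
    intro k
    have h1 : t ((R ^ k) p) = (S * R) ((R ^ k) p) := by
      rw [← hST]; rfl
    have h2 : R ((R ^ k) p) = (R ^ (k + 1)) p := by
      rw [add_comm, zpow_one_add]
      rfl
    rw [h1, Equiv.Perm.mul_apply, h2]
    exact hSk (k + 1)
  have hall : ∀ y, Reach s t p y → ∃ k : ℤ, y = (R ^ k) p := by
    intro y hy
    refine hy.mem_of_closed (K := {y | ∃ k : ℤ, y = (R ^ k) p}) ?_ ?_ ⟨0, by simp⟩
    · rintro u ⟨k, rfl⟩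
      exact ⟨-k, hSk k⟩
    · rintro u ⟨k, rfl⟩
      exact ⟨-(k + 1), hTk k⟩
  obtain ⟨k, rfl⟩ := hall q hpq
  obtain ⟨l, rfl⟩ := hall r hpr
  have hper : ∀ j : ℤ, (R ^ j) p = p ↔ ((MulAction.period R p : ℕ) : ℤ) ∣ j := by
    intro j
    exact MulAction.zpow_smul_eq_iff_period_dvd (g := R) (a := p) (j := j)
  have hmv : ∀ i j : ℤ, (R ^ i) p = (R ^ j) p → ((MulAction.period R p : ℕ) : ℤ) ∣ (j - i) := by
    intro i j hij
    rw [← hper]
    have : (R ^ (-i)) ((R ^ i) p) = (R ^ (-i)) ((R ^ j) p) := by rw [hij]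
    rw [← Equiv.Perm.mul_apply, ← Equiv.Perm.mul_apply, ← zpow_add, ← zpow_add] at this
    rw [sub_eq_neg_add, ← this]
    simp
  have hmv' : ∀ i j : ℤ, ((MulAction.period R p : ℕ) : ℤ) ∣ (j - i) → (R ^ i) p = (R ^ j) p := by
    intro i j hij
    rw [← hper] at hij
    have h2 : (R ^ i) ((R ^ (j - i)) p) = (R ^ i) p := by rw [hij]
    rw [← Equiv.Perm.mul_apply, ← zpow_add] at h2
    rw [← h2]
    congr 2
    ring
  refine arith (L := ((MulAction.period R p : ℕ) : ℤ)) (k := k) (l := l) ?_ ?_ ?_ ?_ ?_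
  · intro h
    exact npq ((hper k).2 h).symm
  · intro h
    exact npr ((hper l).2 h).symm
  · intro h
    exact nqr (hmv' l k h).symm
  · rcases hq with hq | hq
    · left
      rw [hSk] at hq
      have := hmv _ _ hq
      rwa [show k - -k = 2 * k by ring] at this
    · right
      rw [hTk] at hq
      have := hmv _ _ hq
      rwa [show k - -(k + 1) = 2 * k + 1 by ring] at this
  · rcases hr with hr | hr
    · left
      rw [hSk] at hr
      have := hmv _ _ hr
      rwa [show l - -l = 2 * l by ring] at this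
    · right
      rw [hTk] at hr
      have := hmv _ _ hr
      rwa [show l - -(l + 1) = 2 * l + 1 by ring] at this

/-- At most two points of an orbit of two involutions are fixed by one of them. -/
theorem three_fixed {s t : W → W} (hs : ∀ u, s (s u) = u) (ht : ∀ u, t (t u) = u)
    {p q r : W} (hp : s p = p ∨ t p = p) (hq : s q = q ∨ t q = q) (hr : s r = r ∨ t r = r)
    (hpq : Reach s t p q) (hpr : Reach s t p r) (npq : p ≠ q) (npr : p ≠ r) (nqr : q ≠ r) :
    False := by
  rcases hp with hp | hp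
  · exact three_fixed_aux hs ht hp hq hr hpq hpr npq npr nqr
  · exact three_fixed_aux ht hs hp hq.symm hr.symm hpq.swap hpr.swap npq npr nqr

end Pool.TC
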