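import Mathlib

/-!
Pairing up the vertices of a set `S` by non-edges of a graph of maximum degree at most `d`.
-/

namespace Pool.TC

open Classical

variable {V : Type*}

/-- `p` is an involution moving only vertices of `S`, to non-neighbours. -/
structure Pairing (G : SimpleGraph V) (S : Finset V) (p : V → V) : Prop where
  inv : ∀ u, p (p u) = u
  mem : ∀ u, p u ≠ u → u ∈ S
  nadj : ∀ u, p u ≠ u → ¬ G.Adj u (p u)

theorem exists_pairing [Fintype V] (G : SimpleGraph V) (S : Finset V) {d : ℕ}
    (hd : ∀ u, (Finset.univ.filter (fun v => G.Adj u v)).card ≤ d)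
    (hS : S.card ≤ 2 * (d + 2)) :
    ∃ p : V → V, Pairing G S p ∧
      S.card + (S.filter (fun u => p u = u)).card ≤ 2 * (d + 2) := by
  -- choose a pairing moving the maximal number of vertices
  have hne : (Finset.univ.filter (fun p : V → V => Pairing G S p)).Nonempty :=
    ⟨id, by
      rw [Finset.mem_filter]
      exact ⟨Finset.mem_univ _, ⟨fun _ => rfl, fun u h => absurd rfl h, fun u h => absurd rfl h⟩⟩⟩
  obtain ⟨p, hp, hmax⟩ := Finset.exists_max_image _
    (fun p : V → V => (Finset.univ.filter (fun u => p u ≠ u)).card) hne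
  rw [Finset.mem_filter] at hp
  have hp := hp.2
  have hmax' : ∀ q : V → V, Pairing G S q →
      (Finset.univ.filter (fun u => q u ≠ u)).card ≤ (Finset.univ.filter (fun u => p u ≠ u)).card :=
    fun q hq => hmax q (by rw [Finset.mem_filter]; exact ⟨Finset.mem_univ _, hq⟩)
  refine ⟨p, hp, ?_⟩
  set U : Finset V := S.filter (fun u => p u = u) with hU
  set A : Finset V := S.filter (fun u => ¬ p u = u) with hA
  have hUA : U.card + A.card = S.card := Finset.card_filter_add_card_filter_not _
  have hUm : ∀ u, u ∈ U ↔ u ∈ S ∧ p u = u := fun u => by rw [hU, Finset.mem_filter]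
  have hAm : ∀ u, u ∈ A ↔ p u ≠ u := fun u => by
    rw [hA, Finset.mem_filter]; exact ⟨fun h => h.2, fun h => ⟨hp.mem u h, h⟩⟩
  have hAp : ∀ u, u ∈ A → p u ∈ A := fun u hu => by
    rw [hAm] at hu ⊢
    rw [hp.inv]
    exact hu.symm
  -- parity
  have hpar : 2 ∣ A.card := by
    let σ : Equiv.Perm V := ⟨p, p, hp.inv, hp.inv⟩
    have h1 : σ ^ 2 = 1 := by
      rw [sq]
      exact Equiv.ext fun u => hp.inv u
    have h2 := Equiv.Perm.two_dvd_card_support h1
    have h3 : σ.support = A := by
      ext u
      rw [Equiv.Perm.mem_support, hAm]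
      rfl
    rwa [h3] at h2
  by_cases hU1 : U.card ≤ 1
  · omega
  push Not at hU1
  -- adding more moved vertices is impossible
  have hgrow : ∀ q : V → V, Pairing G S q → ∀ u, p u = u → q u ≠ u →
      (∀ w, p w ≠ w → q w ≠ w) → False := by
    intro q hq u hu hqu hw
    have h1 : (Finset.univ.filter (fun u => p u ≠ u)) ⊂ (Finset.univ.filter (fun u => q u ≠ u)) := by
      rw [Finset.ssubset_iff_of_subset]
      · exact ⟨u, by simpa using hqu, by simpa using hu⟩
      · intro w hw'
        simp only [Finset.mem_filter, Finset.mem_univ, true_and] at hw' ⊢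
        exact hw w hw'
    exact absurd (hmax' q hq) (not_le.2 (Finset.card_lt_card h1))
  have hclique : ∀ u ∈ U, ∀ v ∈ U, u ≠ v → G.Adj u v := by
    intro u hu v hv huv
    by_contra hadj
    obtain ⟨huS, hpu⟩ := (hUm u).1 hu
    obtain ⟨hvS, hpv⟩ := (hUm v).1 hv
    refine hgrow (fun w => if w = u then v else if w = v then u else p w) ⟨?_, ?_, ?_⟩ u hpu
      ?_ ?_
    · intro w
      by_cases h1 : w = u
      · subst h1; simp [huv.symm]
      by_cases h2 : w = v
      · subst h2; simp [h1]
      have h3 : p w ≠ u := fun h => h1 (by rw [← hp.inv w, h, hpu])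
      have h4 : p w ≠ v := fun h => h2 (by rw [← hp.inv w, h, hpv])
      simp [h1, h2, h3, h4, hp.inv]
    · intro w hw
      by_cases h1 : w = u
      · rw [h1]; exact huS
      by_cases h2 : w = v
      · rw [h2]; exact hvS
      simp only [h1, h2, if_false] at hw
      exact hp.mem w hw
    · intro w hw
      by_cases h1 : w = u
      · subst h1; simpa using hadj
      by_cases h2 : w = v
      · subst h2; simpa [h1] using fun h => hadj (SimpleGraph.Adj.symm h)
      simp only [h1, h2, if_false] at hw ⊢
      exact hp.nadj w hw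
    · simpa using huv.symm
    · intro w hw
      have h1 : w ≠ u := fun h => hw (by rw [h, hpu])
      have h2 : w ≠ v := fun h => hw (by rw [h, hpv])
      simp only [h1, h2, if_false]
      exact hw
  have hcross : ∀ u ∈ U, ∀ v ∈ U, u ≠ v → ∀ a ∈ A, ¬ G.Adj u a → G.Adj v (p a) := by
    intro u hu v hv huv a ha hua
    by_contra hvb
    obtain ⟨huS, hpu⟩ := (hUm u).1 hu
    obtain ⟨hvS, hpv⟩ := (hUm v).1 hv
    have ha' := (hAm a).1 ha
    have haS : a ∈ S := hp.mem a ha'
    have hbS : p a ∈ S := hp.mem _ ((hAm _).1 (hAp a ha))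
    have e1 : a ≠ u := fun h => ha' (by rw [h, hpu])
    have e2 : a ≠ v := fun h => ha' (by rw [h, hpv])
    have e3 : p a ≠ u := fun h => e1 (by rw [← hp.inv a, h, hpu])
    have e4 : p a ≠ v := fun h => e2 (by rw [← hp.inv a, h, hpv])
    refine hgrow (fun w => if w = u then a else if w = a then u else if w = v then p a else
      if w = p a then v else p w) ⟨?_, ?_, ?_⟩ u hpu ?_ ?_
    · intro w
      by_cases h1 : w = u
      · subst h1; simp [e1]
      by_cases h2 : w = a
      · subst h2; simp [h1]
      by_cases h3 : w = v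
      · subst h3; simp [h1, h2, e3, e4, ha']
      by_cases h4 : w = p a
      · rw [h4]
        simp [e3, e4, ha', e2.symm, huv.symm]
      have h5 : p w ≠ u := fun h => h1 (by rw [← hp.inv w, h, hpu])
      have h6 : p w ≠ v := fun h => h3 (by rw [← hp.inv w, h, hpv])
      have h7 : p w ≠ a := fun h => h4 (by rw [← hp.inv w, h])
      have h8 : p w ≠ p a := fun h => h2 (by rw [← hp.inv w, h, hp.inv])
      simp [h1, h2, h3, h4, h5, h6, h7, h8, hp.inv]
    · intro w hw
      by_cases h1 : w = u
      · rw [h1]; exact huS
      by_cases h2 : w = a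
      · rw [h2]; exact haS
      by_cases h3 : w = v
      · rw [h3]; exact hvS
      by_cases h4 : w = p a
      · rw [h4]; exact hbS
      simp only [h1, h2, h3, h4, if_false] at hw
      exact hp.mem w hw
    · intro w hw
      by_cases h1 : w = u
      · subst h1; simpa using hua
      by_cases h2 : w = a
      · subst h2; simpa [h1] using fun h => hua (SimpleGraph.Adj.symm h)
      by_cases h3 : w = v
      · subst h3; simpa [h1, h2] using hvb
      by_cases h4 : w = p a
      · rw [h4]
        simpa [e3, e4, ha'] using fun h => hvb (SimpleGraph.Adj.symm h)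
      simp only [h1, h2, h3, h4, if_false] at hw ⊢
      exact hp.nadj w hw
    · simpa using e1
    · intro w hw
      have h1 : w ≠ u := fun h => hw (by rw [h, hpu])
      have h3 : w ≠ v := fun h => hw (by rw [h, hpv])
      by_cases h2 : w = a
      · subst h2; simpa [h1] using h1.symm
      by_cases h4 : w = p a
      · rw [h4]
        simpa [e3, e4, ha'] using e4.symm
      simp only [h1, h2, h3, h4, if_false]
      exact hw
  obtain ⟨u, hu, v, hv, huv⟩ := Finset.one_lt_card.1 hU1
  -- neighbours inside `U` and `A`
  have hcount : ∀ w ∈ U, (A.filter (fun a => G.Adj w a)).card + (U.card - 1) ≤ d := by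
    intro w hw
    have h1 : (U.erase w).card = U.card - 1 := Finset.card_erase_of_mem hw
    rw [← h1, ← Finset.card_union_of_disjoint]
    · refine le_trans (Finset.card_le_card ?_) (hd w)
      intro z hz
      simp only [Finset.mem_union, Finset.mem_filter, Finset.mem_erase, Finset.mem_univ,
        true_and] at hz ⊢
      rcases hz with hz | hz
      · exact hz.2
      · exact hclique w hw z hz.2 hz.1.symm
    · rw [Finset.disjoint_left]
      intro z hz hz'
      rw [Finset.mem_filter, hAm] at hz
      rw [Finset.mem_erase, hUm] at hz'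
      exact hz.1 hz'.2.2
  have hinj : (A.filter (fun a => ¬ G.Adj u a)).card ≤ (A.filter (fun a => G.Adj v a)).card := by
    refine Finset.card_le_card_of_injOn p ?_ ?_
    · intro a ha
      rw [Finset.mem_coe, Finset.mem_filter] at ha ⊢
      exact ⟨hAp a ha.1, hcross u hu v hv huv a ha.1 ha.2⟩
    · intro a _ b _ hab
      rw [← hp.inv a, hab, hp.inv]
  have hsum : (A.filter (fun a => G.Adj u a)).card + (A.filter (fun a => ¬ G.Adj u a)).card =
      A.card := Finset.card_filter_add_card_filter_not _
  have c1 := hcount u hu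
  have c2 := hcount v hv
  omega

end Pool.TC
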