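import Pool.Agent.Helper83.TC.Claims

/-!
A simple graph of maximum degree at most `D` has a proper edge colouring with `D + 2` colours in
which a given matching of at most `D + 1` edges is rainbow.
-/

namespace Pool.TC

open Classical

variable {W κ : Type*}

/-- There is a colour not used on the matching. -/
theorem exists_free [Fintype κ] [Fintype W] {m : W → W} {E : EC κ W} {D : ℕ}
    (hm : ∀ u, m (m u) = u)
    (hκ : Fintype.card κ = D + 2)
    (hM : (Finset.univ.filter (fun u => m u ≠ u)).card ≤ 2 * (D + 1)) : ∃ f, Fr m E f := by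
  by_contra hcon
  have h1 : ∀ a : κ, 2 ≤ (Finset.univ.filter (fun u => E.N a u = m u ∧ m u ≠ u)).card := by
    intro a
    have : ¬ Fr m E a := fun h => hcon ⟨a, h⟩
    unfold Fr at this
    push Not at this
    obtain ⟨u, hu1, hu2⟩ := this
    have hsub : ({u, m u} : Finset W) ⊆ Finset.univ.filter (fun u => E.N a u = m u ∧ m u ≠ u) := by
      intro v hv
      rw [Finset.mem_insert, Finset.mem_singleton] at hv
      simp only [Finset.mem_filter, Finset.mem_univ, true_and]
      rcases hv with rfl | rfl
      · exact ⟨hu1, hu2⟩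
      · rw [hm, ← hu1, E.inv, hu1]
        exact ⟨rfl, hu2.symm⟩
    calc 2 = ({u, m u} : Finset W).card := (Finset.card_pair hu2.symm).symm
      _ ≤ _ := Finset.card_le_card hsub
  have h2 : ∑ a : κ, (Finset.univ.filter (fun u => E.N a u = m u ∧ m u ≠ u)).card ≤
      (Finset.univ.filter (fun u => m u ≠ u)).card := by
    rw [← Finset.card_biUnion]
    · apply Finset.card_le_card
      intro u hu
      simp only [Finset.mem_biUnion, Finset.mem_univ, true_and, Finset.mem_filter] at hu ⊢
      obtain ⟨a, _, h⟩ := hu
      exact h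
    · intro a _ b _ hab
      rw [Function.onFun, Finset.disjoint_left]
      intro u hu hu'
      simp only [Finset.mem_filter, Finset.mem_univ, true_and] at hu hu'
      exact hab (E.uniq _ _ u (hu.1.trans hu'.1.symm) (by rw [hu.1]; exact hu.2))
  have h3 : (Finset.univ : Finset κ).card * 2 ≤
      ∑ a : κ, (Finset.univ.filter (fun u => E.N a u = m u ∧ m u ≠ u)).card := by
    rw [← smul_eq_mul]
    exact Finset.card_nsmul_le_sum _ _ _ (fun a _ => h1 a)
  rw [Finset.card_univ, hκ] at h3
  omega

/-- The graph with edge set `T` plus the matching. -/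
def TG (m : W → W) (T : Finset (Sym2 W)) (hm : ∀ u, m (m u) = u) : SimpleGraph W where
  Adj u v := u ≠ v ∧ (s(u, v) ∈ T ∨ m u = v)
  symm := ⟨by
    rintro u v ⟨h1, h2 | h2⟩
    · exact ⟨h1.symm, Or.inl (by rwa [Sym2.eq_swap])⟩
    · exact ⟨h1.symm, Or.inr (by rw [← h2, hm])⟩⟩
  loopless := ⟨fun u h => h.1 rfl⟩

/-- The matching alone can be coloured. -/
theorem base_case [Fintype κ] [Fintype W] {m : W → W} {D : ℕ} (hm : ∀ u, m (m u) = u)
    (hκ : Fintype.card κ = D + 2)
    (hM : (Finset.univ.filter (fun u => m u ≠ u)).card ≤ 2 * (D + 1)) :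
    ∃ E : EC κ W, Good (TG m ∅ hm) m E := by
  set MV : Finset W := Finset.univ.filter (fun u => m u ≠ u) with hMV
  have hMVm : ∀ u, u ∈ MV ↔ m u ≠ u := fun u => by simp [hMV]
  set MS : Finset (Sym2 W) := MV.image (fun u => s(u, m u)) with hMS
  have hcard : MS.card * 2 ≤ MV.card := by
    rw [Finset.card_eq_sum_card_image (fun u => s(u, m u)) MV, ← smul_eq_mul]
    refine Finset.card_nsmul_le_sum _ _ _ ?_
    intro e he
    rw [Finset.mem_image] at he
    obtain ⟨u, hu, rfl⟩ := he
    have hu' := (hMVm u).1 hu
    have hsub : ({u, m u} : Finset W) ⊆ MV.filter (fun v => s(v, m v) = s(u, m u)) := by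
      intro v hv
      rw [Finset.mem_insert, Finset.mem_singleton] at hv
      rw [Finset.mem_filter]
      rcases hv with rfl | rfl
      · exact ⟨hu, rfl⟩
      · rw [hm]
        exact ⟨(hMVm _).2 (by rw [hm]; exact hu'.symm), Sym2.eq_swap⟩
    calc 2 = ({u, m u} : Finset W).card := (Finset.card_pair hu'.symm).symm
      _ ≤ _ := Finset.card_le_card hsub
  have hle : Fintype.card MS ≤ Fintype.card κ := by
    rw [Fintype.card_coe, hκ]
    omega
  obtain ⟨φ⟩ := Function.Embedding.nonempty_of_card_le hle
  have hne : Nonempty κ := by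
    rw [← Fintype.card_pos_iff, hκ]; omega
  let ι : Sym2 W → κ := fun e => if h : e ∈ MS then φ ⟨e, h⟩ else Classical.choice hne
  have hι : ∀ e ∈ MS, ∀ e' ∈ MS, ι e = ι e' → e = e' := by
    intro e he e' he' h
    simp only [ι, he, he', dif_pos] at h
    have := φ.injective h
    exact congrArg Subtype.val this
  have hmem : ∀ u, m u ≠ u → s(u, m u) ∈ MS := fun u hu =>
    Finset.mem_image.2 ⟨u, (hMVm u).2 hu, rfl⟩
  let E : EC κ W :=
    { N := fun a u => if ι s(u, m u) = a then m u else u
      inv := by
        intro a u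
        by_cases h : ι s(u, m u) = a
        · have h' : ι s(m u, m (m u)) = a := by rw [hm, Sym2.eq_swap, h]
          rw [if_pos h, if_pos h', hm]
        · rw [if_neg h, if_neg h]
      uniq := by
        intro a b u h1 h2
        by_cases ha : ι s(u, m u) = a
        · by_cases hb : ι s(u, m u) = b
          · rw [← ha, hb]
          · rw [if_pos ha] at h1 h2
            rw [if_neg hb] at h1
            exact absurd h1 h2
        · rw [if_neg ha] at h2
          exact absurd rfl h2 }
  have hEN : ∀ a u, E.N a u = if ι s(u, m u) = a then m u else u := fun _ _ => rfl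
  refine ⟨E, ?_, ?_, ?_⟩
  · rintro u v ⟨h1, h2 | h2⟩
    · exact absurd h2 (Finset.notMem_empty _)
    · exact ⟨ι s(u, m u), by rw [hEN, if_pos rfl, h2]⟩
  · intro a u h
    rw [hEN] at h ⊢
    split_ifs at h ⊢ with h3
    · exact ⟨h.symm, Or.inr rfl⟩
    · exact absurd rfl h
  · intro a u v h1 h2 h3 h4
    rw [hEN] at h1 h3
    split_ifs at h1 h3 with h5 h6 h6
    · have := hι _ (hmem u h2) _ (hmem v h4) (h5.trans h6.symm)
      rw [Sym2.eq_iff] at this
      rcases this with ⟨h7, _⟩ | ⟨_, h7⟩
      · exact Or.inl h7.symm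
      · exact Or.inr h7.symm
    · exact absurd h3.symm h4
    · exact absurd h1.symm h2
    · exact absurd h1.symm h2

/-- **Rainbow Vizing theorem.** A graph of maximum degree at most `D` has a proper edge colouring
with `D + 2` colours such that a given matching with at most `D + 1` edges is rainbow. -/
theorem rainbow [Fintype κ] [Fintype W] {H : SimpleGraph W} {m : W → W} {D : ℕ}
    (hm : ∀ u, m (m u) = u) (hmH : ∀ u, m u ≠ u → H.Adj u (m u))
    (hD : ∀ u, (Finset.univ.filter (fun v => H.Adj u v)).card ≤ D)
    (hκ : Fintype.card κ = D + 2)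
    (hM : (Finset.univ.filter (fun u => m u ≠ u)).card ≤ 2 * (D + 1)) :
    ∃ E : EC κ W, Good H m E := by
  have key : ∀ T : Finset (Sym2 W), (∀ e ∈ T, e ∈ H.edgeSet) →
      ∃ E : EC κ W, Good (TG m T hm) m E := by
    intro T
    induction T using Finset.induction_on with
    | empty => exact fun _ => base_case hm hκ hM
    | insert e T heT ih =>
      intro hT
      obtain ⟨E, hE⟩ := ih (fun e' he' => hT e' (Finset.mem_insert_of_mem he'))
      have heH := hT e (Finset.mem_insert_self _ _)
      induction e with | _ x y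
      rw [SimpleGraph.mem_edgeSet] at heH
      by_cases hxy : (TG m T hm).Adj x y
      · have : TG m (insert s(x, y) T) hm = TG m T hm := by
          ext u v
          constructor
          · rintro ⟨h1, h2 | h2⟩
            · rcases Finset.mem_insert.1 h2 with h3 | h3
              · rw [Sym2.eq_iff] at h3
                rcases h3 with ⟨rfl, rfl⟩ | ⟨rfl, rfl⟩
                · exact hxy
                · exact hxy.symm
              · exact ⟨h1, Or.inl h3⟩
            · exact ⟨h1, Or.inr h2⟩
          · rintro ⟨h1, h2 | h2⟩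
            · exact ⟨h1, Or.inl (Finset.mem_insert_of_mem h2)⟩
            · exact ⟨h1, Or.inr h2⟩
        rw [this]
        exact ⟨E, hE⟩
      · have hmono : ∀ u v, (TG m T hm).Adj u v → (TG m (insert s(x, y) T) hm).Adj u v := by
          rintro u v ⟨h1, h2 | h2⟩
          · exact ⟨h1, Or.inl (Finset.mem_insert_of_mem h2)⟩
          · exact ⟨h1, Or.inr h2⟩
        have hst : St (TG m (insert s(x, y) T) hm) m E x y := by
          refine ⟨⟨heH.ne, Or.inl (Finset.mem_insert_self _ _)⟩, ?_, ?_, ?_, ?_, hE.rb⟩
          · exact fun h => hxy ⟨heH.ne, Or.inr h⟩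
          · intro a h
            have := hE.sub a x (by rw [h]; exact heH.ne.symm)
            rw [h] at this
            exact hxy this
          · rintro u v ⟨h1, h2 | h2⟩
            · rcases Finset.mem_insert.1 h2 with h3 | h3
              · rw [Sym2.eq_iff] at h3
                exact Or.inr h3
              · exact Or.inl (hE.cov u v ⟨h1, Or.inl h3⟩)
            · exact Or.inl (hE.cov u v ⟨h1, Or.inr h2⟩)
          · exact fun a u h => hmono _ _ (hE.sub a u h)
        obtain ⟨f, hf⟩ := exists_free (E := E) hm hκ hM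
        refine main_step hm hst (D := D) ?_ hκ hf
        intro u
        refine le_trans (Finset.card_le_card ?_) (hD u)
        intro v hv
        simp only [Finset.mem_filter, Finset.mem_univ, true_and] at hv ⊢
        obtain ⟨h1, h2 | h2⟩ := hv
        · exact hT _ h2
        · have := hmH u (by rw [h2]; exact h1.symm)
          rwa [h2] at this
  obtain ⟨E, hE⟩ := key H.edgeFinset (fun e he => SimpleGraph.mem_edgeFinset.1 he)
  have : TG m H.edgeFinset hm = H := by
    ext u v
    constructor
    · rintro ⟨h1, h2 | h2⟩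
      · exact SimpleGraph.mem_edgeFinset.1 h2
      · have := hmH u (by rw [h2]; exact h1.symm)
        rwa [h2] at this
    · intro h
      exact ⟨h.ne, Or.inl (SimpleGraph.mem_edgeFinset.2 h)⟩
  rw [this] at hE
  exact ⟨E, hE⟩

end Pool.TC
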