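import Pool.Agent.Helper83.TC.Rainbow
import Pool.Agent.Helper83.TC.Match

/-!
Total colourings with `Δ + 3` colours of graphs with at most `2Δ + 4` heavy vertices.
-/

namespace Pool.TC

open Classical

variable {V : Type*}

/-- `c`, `e` is a total colouring of `G`: adjacent vertices, edges with a common end, and a vertex
and an edge through it get different colours. -/
structure IsTotalColouring (G : SimpleGraph V) {κ : Type*} (c : V → κ) (e : Sym2 V → κ) :
    Prop where
  vertex_vertex : ∀ u v, G.Adj u v → c u ≠ c v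
  edge_edge : ∀ u v w, G.Adj u v → G.Adj u w → v ≠ w → e s(u, v) ≠ e s(u, w)
  vertex_edge : ∀ u v, G.Adj u v → e s(u, v) ≠ c u

/-- The special edges on `V ⊕ V`: pairs of `p`, and pendant edges at the unpaired vertices of
`S`. -/
noncomputable def spec (S : Finset V) (p : V → V) : V ⊕ V → V ⊕ V
  | Sum.inl u => if u ∈ S then (if p u = u then Sum.inr u else Sum.inl (p u)) else Sum.inl u
  | Sum.inr u => if u ∈ S ∧ p u = u then Sum.inl u else Sum.inr u

theorem spec_inv {G : SimpleGraph V} {S : Finset V} {p : V → V} (hp : Pairing G S p) :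
    ∀ a, spec S p (spec S p a) = a := by
  rintro (u | u)
  · by_cases h1 : u ∈ S
    · by_cases h2 : p u = u
      · simp [spec, h1, h2]
      · have h3 : p u ∈ S := hp.mem _ (by rw [hp.inv]; exact Ne.symm h2)
        simp [spec, h1, h2, h3, hp.inv, Ne.symm h2]
    · simp [spec, h1]
  · by_cases h1 : u ∈ S ∧ p u = u
    · simp [spec, h1]
    · simp [spec, h1]

/-- The auxiliary graph. -/
def aux (G : SimpleGraph V) (S : Finset V) (p : V → V) (hp : Pairing G S p) :
    SimpleGraph (V ⊕ V) where
  Adj a b := (∃ u v, G.Adj u v ∧ a = Sum.inl u ∧ b = Sum.inl v) ∨ (a ≠ b ∧ spec S p a = b)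
  symm := ⟨by
    rintro a b (⟨u, v, h, h1, h2⟩ | ⟨h1, h2⟩)
    · exact Or.inl ⟨v, u, h.symm, h2, h1⟩
    · exact Or.inr ⟨h1.symm, by rw [← h2, spec_inv hp]⟩⟩
  loopless := ⟨by
    rintro a (⟨u, v, h, h1, h2⟩ | ⟨h1, _⟩)
    · exact h.ne (Sum.inl_injective (h1.symm.trans h2))
    · exact h1 rfl⟩

/-- Total colouring of the heavy vertices and all edges. -/
theorem heavy_colouring [Fintype V] (G : SimpleGraph V) (S : Finset V) {d : ℕ}
    (hd : ∀ u, (Finset.univ.filter (fun v => G.Adj u v)).card ≤ d)
    (hS : S.card ≤ 2 * (d + 2)) :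
    ∃ (c : V → Fin (d + 3)) (e : Sym2 V → Fin (d + 3)),
      (∀ u ∈ S, ∀ v ∈ S, G.Adj u v → c u ≠ c v) ∧
      (∀ u v w, G.Adj u v → G.Adj u w → v ≠ w → e s(u, v) ≠ e s(u, w)) ∧
      (∀ u ∈ S, ∀ v, G.Adj u v → e s(u, v) ≠ c u) := by
  obtain ⟨p, hp, hcard⟩ := exists_pairing G S hd hS
  have hinv := spec_inv hp
  have hmoved : ∀ u ∈ S, spec S p (Sum.inl u) ≠ Sum.inl u := by
    intro u hu
    by_cases h2 : p u = u
    · simp [spec, hu, h2]
    · simp [spec, hu, h2]
  have hnadj : ∀ u v, G.Adj u v → spec S p (Sum.inl u) ≠ Sum.inl v := by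
    intro u v huv h
    by_cases hu : u ∈ S
    · by_cases h2 : p u = u
      · simp [spec, hu, h2] at h
      · simp only [spec, hu, h2, if_true, if_false, Sum.inl.injEq] at h
        exact hp.nadj u h2 (h ▸ huv)
    · simp only [spec, hu, if_false, Sum.inl.injEq] at h
      exact huv.ne h
  have a1 : ∀ a, spec S p a ≠ a → (aux G S p hp).Adj a (spec S p a) := by
    intro a ha
    exact Or.inr ⟨ha.symm, rfl⟩
  have a2 : ∀ a, (Finset.univ.filter (fun b => (aux G S p hp).Adj a b)).card ≤ d + 1 := by
    rintro (u | u)
    · have hsub : (Finset.univ.filter (fun b => (aux G S p hp).Adj (Sum.inl u) b)) ⊆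
          insert (spec S p (Sum.inl u))
            ((Finset.univ.filter (fun v => G.Adj u v)).image Sum.inl) := by
        intro b hb
        simp only [Finset.mem_filter, Finset.mem_univ, true_and] at hb
        rw [Finset.mem_insert, Finset.mem_image]
        rcases hb with ⟨u', v, h, h1, h2⟩ | ⟨_, h2⟩
        · right
          have h1 := Sum.inl_injective h1
          subst h1
          exact ⟨v, by simpa using h, h2.symm⟩
        · exact Or.inl h2.symm
      refine (Finset.card_le_card hsub).trans ((Finset.card_insert_le _ _).trans ?_)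
      exact Nat.add_le_add_right (Finset.card_image_le.trans (hd u)) 1
    · have hsub : (Finset.univ.filter (fun b => (aux G S p hp).Adj (Sum.inr u) b)) ⊆
          {spec S p (Sum.inr u)} := by
        intro b hb
        simp only [Finset.mem_filter, Finset.mem_univ, true_and] at hb
        rw [Finset.mem_singleton]
        rcases hb with ⟨u', v, h, h1, h2⟩ | ⟨_, h2⟩
        · exact absurd h1 (by simp)
        · exact h2.symm
      refine (Finset.card_le_card hsub).trans ?_
      rw [Finset.card_singleton]
      omega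
  have a3 : Fintype.card (Fin (d + 3)) = (d + 1) + 2 := by simp
  have a4 : (Finset.univ.filter (fun a => spec S p a ≠ a)).card ≤ 2 * ((d + 1) + 1) := by
    have hsub : (Finset.univ.filter (fun a => spec S p a ≠ a)) ⊆
        S.image Sum.inl ∪ (S.filter (fun u => p u = u)).image Sum.inr := by
      intro a ha
      simp only [Finset.mem_filter, Finset.mem_univ, true_and] at ha
      rw [Finset.mem_union, Finset.mem_image, Finset.mem_image]
      rcases a with u | u
      · left
        refine ⟨u, ?_, rfl⟩
        by_contra hu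
        exact ha (by simp [spec, hu])
      · right
        refine ⟨u, ?_, rfl⟩
        rw [Finset.mem_filter]
        by_contra hu
        exact ha (by simp only [spec, hu, if_false])
    refine (Finset.card_le_card hsub).trans ((Finset.card_union_le _ _).trans ?_)
    exact (Nat.add_le_add Finset.card_image_le Finset.card_image_le).trans
      (hcard.trans (by omega))
  obtain ⟨E, hE⟩ := rainbow (κ := Fin (d + 3)) (D := d + 1) hinv a1
    (by intro u; convert a2 u) a3 (by convert a4)
  -- the colours
  have hv : ∀ u ∈ S, ∃ a, E.N a (Sum.inl u) = spec S p (Sum.inl u) := fun u hu =>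
    hE.cov _ _ (Or.inr ⟨(hmoved u hu).symm, rfl⟩)
  have he : ∀ u v, G.Adj u v → ∃ a, E.N a (Sum.inl u) = Sum.inl v := fun u v h =>
    hE.cov _ _ (Or.inl ⟨u, v, h, rfl, rfl⟩)
  let c : V → Fin (d + 3) := fun u => if h : u ∈ S then (hv u h).choose else 0
  have hc : ∀ u ∈ S, E.N (c u) (Sum.inl u) = spec S p (Sum.inl u) := by
    intro u hu
    simp only [c, hu, dif_pos]
    exact (hv u hu).choose_spec
  let e : Sym2 V → Fin (d + 3) := fun s =>
    if h : ∃ a, ∃ u v, s = s(u, v) ∧ E.N a (Sum.inl u) = Sum.inl v then h.choose else 0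
  have hee : ∀ u v, G.Adj u v → E.N (e s(u, v)) (Sum.inl u) = Sum.inl v := by
    intro u v h
    have hex : ∃ a, ∃ u' v', s(u, v) = s(u', v') ∧ E.N a (Sum.inl u') = Sum.inl v' := by
      obtain ⟨a, ha⟩ := he u v h
      exact ⟨a, u, v, rfl, ha⟩
    simp only [e, hex, dif_pos]
    obtain ⟨u', v', h1, h2⟩ := hex.choose_spec
    rcases Sym2.eq_iff.1 h1 with ⟨rfl, rfl⟩ | ⟨rfl, rfl⟩
    · exact h2
    · rw [← h2, E.inv]
  refine ⟨c, e, ?_, ?_, ?_⟩
  · intro u hu v hv' huv hcc
    have h1 := hc u hu
    have h2 := hc v hv'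
    rw [← hcc] at h2
    rcases hE.rb _ _ _ h1 (hmoved u hu) h2 (hmoved v hv') with h3 | h3
    · exact huv.ne (Sum.inl_injective h3).symm
    · exact hnadj u v huv h3.symm
  · intro u v w h1 h2 hvw hcc
    have h3 := hee u v h1
    have h4 := hee u w h2
    rw [← hcc, h3] at h4
    exact hvw (Sum.inl_injective h4)
  · intro u hu v huv hcc
    have h3 := hee u v huv
    rw [hcc, hc u hu] at h3
    exact hnadj u v huv h3

/-- Adding the light vertices greedily. -/
theorem total_colouring [Fintype V] (G : SimpleGraph V) {d : ℕ}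
    (hd : ∀ u, (Finset.univ.filter (fun v => G.Adj u v)).card ≤ d)
    (hS : (Finset.univ.filter
      (fun u => d + 2 < 2 * (Finset.univ.filter (fun v => G.Adj u v)).card)).card ≤
        2 * (d + 2)) :
    ∃ (c : V → Fin (d + 3)) (e : Sym2 V → Fin (d + 3)), IsTotalColouring G c e := by
  set S : Finset V := Finset.univ.filter
      (fun u => d + 2 < 2 * (Finset.univ.filter (fun v => G.Adj u v)).card) with hSdef
  obtain ⟨c0, e, h1, h2, h3⟩ := heavy_colouring G S hd hS
  have key : ∀ T : Finset V, (∀ u ∈ T, u ∉ S) → ∃ c : V → Fin (d + 3),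
      (∀ u ∈ S ∪ T, ∀ v ∈ S ∪ T, G.Adj u v → c u ≠ c v) ∧
      (∀ u ∈ S ∪ T, ∀ v, G.Adj u v → e s(u, v) ≠ c u) := by
    intro T
    induction T using Finset.induction_on with
    | empty =>
      intro _
      exact ⟨c0, by simpa using h1, by simpa using h3⟩
    | insert w T hwT ih =>
      intro hT
      obtain ⟨c, hc1, hc2⟩ := ih (fun u hu => hT u (Finset.mem_insert_of_mem hu))
      have hwS := hT w (Finset.mem_insert_self _ _)
      set N : Finset V := Finset.univ.filter (fun v => G.Adj w v) with hN
      have hNm : ∀ v, v ∈ N ↔ G.Adj w v := fun v => by simp [hN]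
      have hlight : 2 * N.card ≤ d + 2 := by
        by_contra hcon
        push Not at hcon
        exact hwS (by rw [hSdef, Finset.mem_filter]; exact ⟨Finset.mem_univ _, hcon⟩)
      obtain ⟨a, ha⟩ : ∃ a : Fin (d + 3), a ∉ N.image c ∪ N.image (fun v => e s(w, v)) := by
        by_contra hcon
        push Not at hcon
        have h4 : (Finset.univ : Finset (Fin (d + 3))).card ≤
            (N.image c ∪ N.image (fun v => e s(w, v))).card :=
          Finset.card_le_card (fun a _ => hcon a)
        rw [Finset.card_univ, Fintype.card_fin] at h4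
        have h5 := Finset.card_union_le (N.image c) (N.image (fun v => e s(w, v)))
        have h6 : (N.image c).card ≤ N.card := Finset.card_image_le
        have h7 : (N.image (fun v => e s(w, v))).card ≤ N.card := Finset.card_image_le
        omega
      rw [Finset.mem_union, not_or, Finset.mem_image, Finset.mem_image] at ha
      obtain ⟨ha1, ha2⟩ := ha
      push Not at ha1 ha2
      refine ⟨Function.update c w a, ?_, ?_⟩
      · intro u hu v hv huv
        by_cases huw : u = w
        · subst huw
          rw [Function.update_self, Function.update_of_ne huv.ne.symm]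
          exact fun h => ha1 v ((hNm v).2 huv) h.symm
        by_cases hvw : v = w
        · subst hvw
          rw [Function.update_self, Function.update_of_ne huw]
          exact ha1 u ((hNm u).2 huv.symm)
        rw [Function.update_of_ne huw, Function.update_of_ne hvw]
        refine hc1 u ?_ v ?_ huv
        · simpa [huw] using hu
        · simpa [hvw] using hv
      · intro u hu v huv
        by_cases huw : u = w
        · subst huw
          rw [Function.update_self]
          exact ha2 v ((hNm v).2 huv)
        rw [Function.update_of_ne huw]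
        exact hc2 u (by simpa [huw] using hu) v huv
  obtain ⟨c, hc1, hc2⟩ := key (Finset.univ \ S) (fun u hu => (Finset.mem_sdiff.1 hu).2)
  have hall : ∀ u, u ∈ S ∪ (Finset.univ \ S) := fun u => by
    rw [Finset.union_sdiff_of_subset (Finset.subset_univ _)]; exact Finset.mem_univ _
  exact ⟨c, e, fun u v huv => hc1 u (hall u) v (hall v) huv, h2,
    fun u v huv => hc2 u (hall u) v huv⟩

end Pool.TC
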